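import Pool.Agent.K3h5.IB.Stm

/-!
# Project IB (helper5): brick DEP (helper58)
-/

set_option autoImplicit false

namespace Pool.Agent.K3h58.IB

open Pool.Agent.K3h5.IB

variable {d : ℕ}

lemma path0_repl (a : ℕ) (x : ℕ → S d) (u : ℕ × ℕ × Finset (D d) → D d) :
    path0 (repl a x u) = path0 x := rfl

lemma idx_repl (a : ℕ) (x : ℕ → S d) (u : ℕ × ℕ × Finset (D d) → D d) :
    idx (repl a x u) = idx x := rfl

lemma stk_repl {a i : ℕ} (h : i ≠ a) (x : ℕ → S d) (u : ℕ × ℕ × Finset (D d) → D d) :
    stk (repl a x u) i = stk x i := by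
  funext Z v m
  unfold stk
  rw [idx_repl]
  have h1 : repl a x u (idx x v) (some (i, m, nbrs Z v)) = x (idx x v) (some (i, m, nbrs Z v)) := by
    show (if i = a then _ else _) = _
    rw [if_neg h]
  rw [h1]

lemma XX_repl {a : ℕ} (x : ℕ → S d) (u : ℕ × ℕ × Finset (D d) → D d) (j : ℕ)
    (h : ∀ k < j, k + 1 ≠ a) : XX (repl a x u) j = XX x j := by
  induction j with
  | zero => rfl
  | succ j ih =>
    have h1 := ih fun k hk => h k (by omega)
    show route (stk (repl a x u) (j + 1) (trace (XX (repl a x u) j))) =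
      route (stk x (j + 1) (trace (XX x j)))
    rw [h1, stk_repl (h j (by omega))]

theorem t_DEP : S_DEP := by
  intro d x u
  refine ⟨fun _ => rfl, fun _ => rfl, fun i j hj => XX_repl x u j fun k hk => by omega,
    fun j => XX_repl x u j fun k _ => by omega⟩

end Pool.Agent.K3h58.IB
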