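import Pool.Agent.K3h5.IB.Stm

/-!
# Project IB (helper5): brick MODEL (helper58)
-/

set_option autoImplicit false

open MeasureTheory Filter Topology

namespace Pool.Agent.K3h58.IB

open Pool.Agent.K3h5.IB

variable {d : ℕ}

lemma abs_vec_le (e : D d) (j : Fin d) : |vec e j| ≤ 1 := by
  unfold vec
  by_cases h : j = e.1
  · subst h
    rw [Pi.single_eq_same]
    split_ifs <;> simp
  · rw [Pi.single_eq_of_ne h]
    simp

lemma abs_path0_le (x : ℕ → S d) (n : ℕ) (j : Fin d) : |path0 x n j| ≤ n := by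
  induction n with
  | zero => simp [path0]
  | succ n ih =>
    have h1 : path0 x (n + 1) j = path0 x n j + vec (x n none) j := by
      unfold path0
      rw [Finset.sum_range_succ]
      rfl
    rw [h1]
    have h2 := abs_add_le (path0 x n j) (vec (x n none) j)
    have h3 := abs_vec_le (x n none) j
    push_cast
    linarith

theorem t_MODEL : S_GOODAS → S_LLN → S_CUTG → S_HIT → S_DF → S_LIM → S_MODEL := by
  intro hG hL hC hH hD hLim d p q hP
  obtain ⟨Λ, hΛ, hlim⟩ := hLim d p q hP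
  refine ⟨(Λ⁻¹).toReal, ENNReal.toReal_nonneg, ?_⟩
  filter_upwards [hG d p q hP, hL d p q hP, hlim] with x hg hl hlm
  intro j
  obtain ⟨_, _, _, hmono, _⟩ := hC d _ x hg
  obtain ⟨h1, h2, h3, h4, _⟩ := hH d _ x hg
  refine hD (fun n => YY x n j) (fun n => path0 x n j) (ct (drift (p 0)) x) (hit (drift (p 0)) x)
    (drift (p 0) j) Λ hmono h1 (fun n => ?_) (fun n => abs_path0_le x n j)
    (fun m => congrFun (h2 m) j) (fun m n hn => ?_) (hl.1 j) hlm.1 hΛ hlm.2
  · obtain ⟨e, he⟩ := h4 n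
    have h5 : YY x (n + 1) j - YY x n j = vec e j := by
      rw [he, Pi.add_apply]
      ring
    show |YY x (n + 1) j - YY x n j| ≤ 1
    rw [h5]
    exact abs_vec_le e j
  · obtain ⟨k, hk, hk'⟩ := h3 m n hn
    exact ⟨k, hk, (congrFun hk' j).symm⟩

end Pool.Agent.K3h58.IB
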